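import Pool.Agent.Run7.h293.ST.B

/-!
# The motivic Sato-Tate conjecture for motives of odd weight with squarefree conductor

Let `M` be a polarized pure motive of odd weight over `ℚ` (motivated or absolute Hodge cycles), and let
`V` be its realization over an algebraic closure `K` of `ℚ_ℓ`, with the polarization `ω` and the
multiplier `χ` (`SymplecticRep`; the statement holds for all topological fields `K` of
characteristic `0`). Let `𝒢` be the set of the `K`-points of the kernel `𝒢₁(M)` of the multiplier in the
motivic Galois group: it consists of isometries of `ω`, and contains the `ρ g` with `χ g = 1`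
(`MotivicKernel`). We suppose that the conductor of `V` is squarefree outside `ℓ` (`SquarefreeConductor`),
that nothing is unramified outside `ℓ` (`NothingUnramified`; the theorem of Fontaine, for `ℓ = 7`,
good reduction at `7` and Hodge-Tate weights in `[0, 3]`, for example a part of `H³` of a
variety over `ℚ`), and that the inertia groups at `ℓ` are connected (`InertiaConnected`; this holds if
`V` is crystalline or semistable at `ℓ`).

**Theorem 1.** The following are equivalent.

* `SameEndomorphisms`: `End(M) ⊗ K = End_Γ(V)`, the Tate conjecture for endomorphisms.
* `SameTensors`: for every subgroup `H` of finite index of the Galois group the elements `g` of `H`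
  with `χ g = 1` and the group `𝒢` have the same invariants in all tensor constructions.

As `V` is semisimple and `𝒢₁(M)` is reductive, `SameTensors` says that `G_{1,ℓ}(M)`, its
connected component, and `𝒢₁(M)` are equal: the motivic Sato-Tate conjecture for `M`, and with it the
motivic Tate conjecture and the motivic Mumford-Tate conjecture for `M`. So all of these follow
from the Tate conjecture for the endomorphisms of `M`.

**Theorem 2.** If there is only one bad prime outside `ℓ` (prime conductor), or if `V` is indecomposable, then the
motivic Sato-Tate conjecture holds for `M`; the groups are equal to the full symplectic group.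

The proof: by the theorem `Run7.h293.SQ.splitting` (MP_938ce2_ag/SquarefreeConductor) `V` is the orthogonal sum of
different absolutely irreducible parts `W i`, and the invariants are killed by the Lie algebras of their
symplectic groups. If the projectors on the `W i` commute with `𝒢` then the elements of `𝒢` preserve the
`W i`. Such isometries are products of transvections along vectors in the `W i` (`ST.generated`), and a
transvection fixes the forms which are killed by its logarithm (`ST.inv_of_der`).
-/

set_option autoImplicit false

namespace Pool.Agent.Results.MP_d61fbb_ag.SquarefreeConductor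

open Run7.h293.SQ Run7.h293.ST Module Pool.Agent.W569.FM

/-- **The motivic Sato-Tate conjecture for squarefree conductors.** -/
theorem result (ℓ : ℕ) (K Y : Type) [Field K] [CharZero K] [TopologicalSpace K] [T1Space K]
    [AddCommGroup Y] [Module K Y] [FiniteDimensional K Y] (V : SymplecticRep ℓ K Y)
    (S : Finset ℕ) (hS : SquarefreeConductor V S) (hF : NothingUnramified V)
    (hC : InertiaConnected V) (𝒢 : Set (End K Y)) (hG : MotivicKernel V 𝒢) :
    -- 1. the equivalence
    (SameTensors V 𝒢 ↔ SameEndomorphisms V 𝒢) ∧
    -- 2. one bad prime, or indecomposable
    (S.card ≤ 1 ∨ Indecomposable V → SameTensors V 𝒢 ∧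
      ∀ H : Subgroup (GF ℚ), H.FiniteIndex → ∀ (k : ℕ)
        (φ : MultilinearMap K (fun _ : Fin k => Y) K), Invariant V H φ →
        ∀ h : End K Y, (∀ x y, V.ω (h x) (h y) = V.ω x y) → ∀ x, (φ fun i => h (x i)) = φ x) := by
  refine ⟨same_iff hS hF hC hG, fun h => ?_⟩
  have h1 : Indecomposable V := by
    rcases h with h | h
    · exact indecomposable hS hF hC h
    · exact h
  refine ⟨same_of_indecomposable hS hF hC h1 hG, ?_⟩
  intro H hH k φ hφ a ha x
  have hG' : MotivicKernel V {h : End K Y | ∀ x y, V.ω (h x) (h y) = V.ω x y} :=
    ⟨fun h hh => hh, fun g hg x y => by rw [V.similitude, hg, one_mul]⟩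
  exact (same_of_indecomposable hS hF hC h1 hG' H hH k φ).1 hφ a ha x

end Pool.Agent.Results.MP_d61fbb_ag.SquarefreeConductor
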